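import Pool.Agent.FRE.Stmts

set_option autoImplicit false

namespace Pool.Agent.FRE.H60

/-- an integer valued additive map on the span, nonzero at the given nonzero elements -/
theorem exists_lin (S : Finset ℂ) : ∃ (l : ℂ →ₗ[ℚ] ℚ) (a : ℂ → ℤ),
    ∀ z ∈ S, z ≠ 0 → a z ≠ 0 ∧ l z = (a z : ℚ) := by
  classical
  obtain ⟨f, hf⟩ := Module.exists_dual_forall_apply_ne_zero (K := ℚ)
    (fun z : {z : ℂ // z ∈ S.filter (fun z => z ≠ 0)} => (z : ℂ))
    (fun z => (Finset.mem_filter.mp z.2).2)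
  set D : ℕ := ∏ z ∈ S, (f z).den with hD
  have hD0 : D ≠ 0 := Finset.prod_ne_zero_iff.mpr fun z _ => (f z).den_nz
  have hdvd : ∀ z ∈ S, (f z).den ∣ D := fun z hz => Finset.dvd_prod_of_mem _ hz
  refine ⟨(D : ℚ) • f, fun z => ((D : ℚ) * f z).num, fun z hz hz0 => ?_⟩
  have h1 : (D : ℚ) * f z = (((D : ℚ) * f z).num : ℚ) := by
    obtain ⟨k, hk⟩ := hdvd z hz
    have h2 : (D : ℚ) * f z = ((k * (f z).num : ℤ) : ℚ) := by
      rw [hk]
      push_cast
      have h3 : ((f z).den : ℚ) * f z = (f z).num := by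
        rw [mul_comm]; exact Rat.mul_den_eq_num _
      calc ((f z).den : ℚ) * k * f z = k * (((f z).den : ℚ) * f z) := by ring
        _ = k * (f z).num := by rw [h3]
    rw [h2, Rat.num_intCast]
  constructor
  · intro h4
    dsimp only at h4
    rw [h4, Int.cast_zero] at h1
    rcases mul_eq_zero.mp h1 with h5 | h5
    · exact hD0 (by exact_mod_cast h5)
    · exact hf ⟨z, Finset.mem_filter.mpr ⟨hz, hz0⟩⟩ h5
  · rw [LinearMap.smul_apply, smul_eq_mul]
    exact h1

theorem dil : DilStmt := by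
  classical
  intro S N hN
  obtain ⟨l, a, hl⟩ := exists_lin S
  have hN0 : 0 < N := by omega
  obtain ⟨p, hp1, hp⟩ := Nat.exists_infinite_primes (S.card * N + 2 + ∑ z ∈ S, (a z).natAbs)
  have : Fact p.Prime := ⟨hp⟩
  set q : ℕ := (p - 1) / N with hq
  have hq1 : S.card ≤ q := by
    rw [hq, Nat.le_div_iff_mul_le hN0]
    omega
  have hq2 : q * N ≤ p - 1 := Nat.div_mul_le_self _ _
  have hp0 : 0 < p := hp.pos
  have haz : ∀ z ∈ S, z ≠ 0 → ((a z : ℤ) : ZMod p) ≠ 0 := by
    intro z hz hz0 h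
    rw [ZMod.intCast_zmod_eq_zero_iff_dvd] at h
    have h1 := Int.le_of_dvd (by
      have := (hl z hz hz0).1
      exact Int.natAbs_pos.mpr this |> fun h => (by exact_mod_cast h : (0 : ℤ) < ((a z).natAbs : ℤ)))
      ((Int.dvd_natAbs).mpr h)
    have h2 : (a z).natAbs ≤ ∑ z ∈ S, (a z).natAbs :=
      Finset.single_le_sum (f := fun z => (a z).natAbs) (fun _ _ => Nat.zero_le _) hz
    omega
  -- the bad residues
  set bad : ℂ → Finset (ZMod p) := fun z =>
    (Finset.Icc (-(q : ℤ)) (q : ℤ)).image fun u : ℤ => ((u : ℤ) : ZMod p) * ((a z : ℤ) : ZMod p)⁻¹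
    with hbad
  have hcard : (S.biUnion bad).card < p := by
    calc (S.biUnion bad).card ≤ ∑ z ∈ S, (bad z).card := Finset.card_biUnion_le
      _ ≤ ∑ z ∈ S, (2 * q + 1) := by
          refine Finset.sum_le_sum fun z _ => ?_
          refine Finset.card_image_le.trans ?_
          rw [Int.card_Icc]
          omega
      _ = S.card * (2 * q + 1) := by rw [Finset.sum_const, smul_eq_mul]
      _ < p := by
          have h3 : 2 * S.card ≤ N - 1 := by omega
          have h4 : S.card * (2 * q) ≤ (N - 1) * q := by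
            calc S.card * (2 * q) = (2 * S.card) * q := by ring
              _ ≤ (N - 1) * q := Nat.mul_le_mul_right _ h3
          have h5 : (N - 1) * q + q = q * N := by
            obtain ⟨M, rfl⟩ : ∃ M, N = M + 1 := ⟨N - 1, by omega⟩
            simp only [Nat.add_sub_cancel]
            ring
          have h6 : S.card * (2 * q + 1) = S.card * (2 * q) + S.card := by ring
          omega
  obtain ⟨k, hk⟩ : ∃ k : ZMod p, k ∉ S.biUnion bad := by
    by_contra hcon
    push Not at hcon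
    have : (Finset.univ : Finset (ZMod p)) ⊆ S.biUnion bad := fun k _ => hcon k
    have h7 := Finset.card_le_card this
    rw [Finset.card_univ, ZMod.card] at h7
    omega
  refine ⟨(AddMonoidHom.mulLeft ((k.val : ℝ) / p)).comp
    ((Rat.castHom ℝ).toAddMonoidHom.comp l.toAddMonoidHom), fun z hz hz0 m => ?_⟩
  have hval : (AddMonoidHom.mulLeft ((k.val : ℝ) / p)).comp
    ((Rat.castHom ℝ).toAddMonoidHom.comp l.toAddMonoidHom) z = (k.val : ℝ) / p * ((a z : ℤ) : ℝ) := by
    show (k.val : ℝ) / p * ((l z : ℚ) : ℝ) = _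
    rw [(hl z hz hz0).2]
    push_cast
    rfl
  rw [hval]
  by_contra hcon
  push Not at hcon
  have hpR : (0 : ℝ) < p := by exact_mod_cast hp0
  set u : ℤ := (k.val : ℤ) * a z - m * p with hu
  have h8 : (N : ℝ) * |(u : ℝ)| < p := by
    have h9 : (u : ℝ) = ((k.val : ℝ) / p * ((a z : ℤ) : ℝ) - m) * p := by
      rw [hu]; push_cast; field_simp
    rw [h9, abs_mul, abs_of_pos hpR, ← mul_assoc]
    nlinarith
  have h10 : (N : ℤ) * |u| < p := by exact_mod_cast h8
  have h11 : |u| ≤ (q : ℤ) := by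
    have h12 : u.natAbs ≤ q := by
      rw [hq, Nat.le_div_iff_mul_le hN0]
      have h13 : N * u.natAbs < p := by
        rw [Int.abs_eq_natAbs] at h10
        exact_mod_cast h10
      have : u.natAbs * N = N * u.natAbs := by ring
      omega
    rw [Int.abs_eq_natAbs]
    exact_mod_cast h12
  apply hk
  rw [Finset.mem_biUnion]
  refine ⟨z, hz, ?_⟩
  rw [hbad]
  refine Finset.mem_image.mpr ⟨u, ?_, ?_⟩
  · rw [Finset.mem_Icc]
    exact abs_le.mp h11
  · have h14 : ((u : ℤ) : ZMod p) = k * ((a z : ℤ) : ZMod p) := by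
      rw [hu]
      push_cast
      rw [ZMod.natCast_self, mul_zero, sub_zero, ZMod.natCast_zmod_val]
    rw [h14, mul_assoc, mul_inv_cancel₀ (haz z hz hz0), mul_one]

end Pool.Agent.FRE.H60
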